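import Pool.Agent.W921.VP.Final

set_option autoImplicit false

/-! Countable-to-one definable images of classes of models: the dichotomy is preserved. -/

namespace Pool.Agent.L7h71.GK

open FirstOrder Set MeasureTheory
open FirstOrder.Language (Theory BoundedFormula)
open Pool.Agent.W921.VP

variable {L L' : FirstOrder.Language.{0, 0}}

/-- The structure whose relations are defined in `S'` by the formulas `θ`. -/
@[reducible] def img (hr : L.IsRelational) (θ : ∀ n, L.Relations n → L'.BoundedFormula Empty n)
    (S' : L'.Structure ℕ) : L.Structure ℕ where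
  funMap := fun f => isEmptyElim f
  RelMap := fun {n} R v => @BoundedFormula.Realize L' ℕ S' Empty n (θ n R) Empty.elim v

theorem realize_isom (hr' : L'.IsRelational) {S S' : L'.Structure ℕ} (e : ℕ ≃ ℕ)
    (he : ∀ (n : ℕ) (R : L'.Relations n) (s : Fin n → ℕ),
      S.RelMap R s ↔ S'.RelMap R (fun i => e (s i)))
    {n : ℕ} (φ : L'.BoundedFormula Empty n) (v : Fin n → ℕ) :
    @BoundedFormula.Realize L' ℕ S Empty n φ Empty.elim v ↔
      @BoundedFormula.Realize L' ℕ S' Empty n φ Empty.elim (fun i => e (v i)) := by
  let E : @FirstOrder.Language.Equiv L' ℕ ℕ S S' :=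
    @FirstOrder.Language.Equiv.mk L' ℕ ℕ S S' e (fun {n} f _ => isEmptyElim f)
      (fun {n} R s => (he n R s).symm)
  have h := @FirstOrder.Language.StrongHomClass.realize_boundedFormula L' ℕ ℕ S S' Empty n
    (@FirstOrder.Language.Equiv L' ℕ ℕ S S') _ _ E φ Empty.elim v
  have h2 : (⇑E ∘ (Empty.elim : Empty → ℕ)) = Empty.elim := funext fun x => x.elim
  rw [h2] at h
  exact h.symm

theorem isom_img (hr : L.IsRelational) (hr' : L'.IsRelational)
    (θ : ∀ n, L.Relations n → L'.BoundedFormula Empty n) {S S' : L'.Structure ℕ}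
    (h : Isom S S') : Isom (img hr θ S) (img hr θ S') := by
  obtain ⟨e, he⟩ := h
  exact ⟨e, fun n R s => realize_isom hr' e he (θ n R) s⟩

theorem isom_symm {M N : Type} {S : L.Structure M} {S' : L.Structure N} (h : Isom S S') :
    Isom S' S := by
  obtain ⟨e, he⟩ := h
  refine ⟨e.symm, fun n R s => ?_⟩
  rw [he n R (fun i => e.symm (s i))]
  simp

theorem isom_trans {M N P : Type} {S : L.Structure M} {S' : L.Structure N} {S'' : L.Structure P}
    (h : Isom S S') (h' : Isom S' S'') : Isom S S'' := by
  obtain ⟨e, he⟩ := h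
  obtain ⟨e', he'⟩ := h'
  exact ⟨e.trans e', fun n R s => (he n R s).trans (he' n R _)⟩

theorem str_ext (hr : L.IsRelational) {S S' : L.Structure ℕ}
    (h : ∀ (n : ℕ) (R : L.Relations n) (s : Fin n → ℕ), S.RelMap R s ↔ S'.RelMap R s) : S = S' := by
  refine FirstOrder.Language.Structure.ext ?_ ?_
  · funext n f
    exact isEmptyElim f
  · funext n R s
    exact propext (h n R s)

theorem exists_cont {X Y : Type} [TopologicalSpace X] [PolishSpace X] [MeasurableSpace X]
    [BorelSpace X] (hX : ¬ (univ : Set X).Countable) [TopologicalSpace Y]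
    [SecondCountableTopology Y] [MeasurableSpace Y] [OpensMeasurableSpace Y] (F : X → Y)
    (hF : Measurable F) : ∃ h : (ℕ → Bool) → X, Function.Injective h ∧ Continuous (F ∘ h) := by
  obtain ⟨t', ht', hc, hp⟩ := hF.exists_continuous
  obtain ⟨h0, -, h0c, h0i⟩ := @IsClosed.exists_nat_bool_injection_of_not_countable X t'
      hp univ (@isClosed_univ _ t') hX
  exact ⟨h0, h0i, @Continuous.comp _ _ _ _ t' _ _ _ hc h0c⟩

theorem dich_img (hL : Countable L.Symbols) (hr : L.IsRelational) (_hL' : Countable L'.Symbols)
    (hr' : L'.IsRelational) (T' : L'.Theory) (hd : Dich T')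
    (θ : ∀ n, L.Relations n → L'.BoundedFormula Empty n) (T : L.Theory)
    (h1 : ∀ S : L.Structure ℕ, Mods S T ↔ ∃ S' : L'.Structure ℕ, Mods S' T' ∧ img hr θ S' = S)
    (h2 : ∀ S : L.Structure ℕ, Mods S T →
      {S' : L'.Structure ℕ | Mods S' T' ∧ img hr θ S' = S}.Countable) : Dich T := by
  classical
  rcases hd with ⟨g, hg⟩ | ⟨f, hf1, hf2, hf3⟩
  · left
    refine ⟨fun n => img hr θ (g n), fun S hS => ?_⟩
    obtain ⟨S', hS', rfl⟩ := (h1 S).1 hS
    obtain ⟨n, hn⟩ := hg S' hS'
    exact ⟨n, isom_img hr hr' θ hn⟩
  · right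
    have hI : Countable (Σ n, L.Relations n × (Fin n → ℕ)) := by
      have : ∀ n, Countable (L.Relations n) := by
        intro n
        have hinj : Function.Injective
            (fun R : L.Relations n => (Sum.inr ⟨n, R⟩ : L.Symbols)) := by
          intro R R' h
          simpa using h
        exact hinj.countable
      infer_instance
    have hcode : Measurable (fun x : ℕ → Bool => code (f x)) := by
      refine measurable_pi_iff.2 fun p => ?_
      refine measurable_to_bool ?_
      have : (fun x : ℕ → Bool => code (f x) p) ⁻¹' {true} = {x | (f x).RelMap p.2.1 p.2.2} := by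
        ext x
        simp [code]
      rw [this]
      exact (hf3 _ _ _).isOpen.measurableSet
    have hstr : ∀ x, str (code (f x)) = f x := by
      intro x
      refine str_ext hr' fun n R s => ?_
      show decide _ = true ↔ _
      rw [decide_eq_true_iff]
    have hmeas : ∀ (n : ℕ) (R : L.Relations n) (v : Fin n → ℕ),
        MeasurableSet {x : ℕ → Bool | (img hr θ (f x)).RelMap R v} := by
      intro n R v
      have h3 := hcode (Pool.Agent.W108.VPMEA.meas (θ n R) Empty.elim v)
      have h4 : (fun x : ℕ → Bool => code (f x)) ⁻¹'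
          {c : Code L' | @BoundedFormula.Realize L' ℕ (str c) Empty n (θ n R) Empty.elim v} =
          {x : ℕ → Bool | (img hr θ (f x)).RelMap R v} := by
        ext x
        show @BoundedFormula.Realize L' ℕ (str (code (f x))) Empty n (θ n R) Empty.elim v ↔
          @BoundedFormula.Realize L' ℕ (f x) Empty n (θ n R) Empty.elim v
        rw [hstr]
      rw [h4] at h3
      exact h3
    let F0 : (ℕ → Bool) → ((Σ n, L.Relations n × (Fin n → ℕ)) → Bool) := fun x =>
      code (img hr θ (f x))
    have hF0 : Measurable F0 := by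
      refine measurable_pi_iff.2 fun p => ?_
      refine measurable_to_bool ?_
      have : (fun x : ℕ → Bool => F0 x p) ⁻¹' {true} =
          {x | (img hr θ (f x)).RelMap p.2.1 p.2.2} := by
        ext x
        simp [F0, code]
      rw [this]
      exact hmeas _ _ _
    have : PolishSpace (ℕ → Bool) := Pool.Agent.W345.VP.polish_cantor
    have hun : ¬ (univ : Set (ℕ → Bool)).Countable := by
      intro hcn
      have hcn' : Countable (ℕ → Bool) := Set.countable_univ_iff.1 hcn
      have : Countable (Set ℕ) :=
        (Equiv.countable_iff (Equiv.arrowCongr (Equiv.refl ℕ) Equiv.propEquivBool.symm)).1 hcn'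
      obtain ⟨f, hf⟩ := exists_injective_nat (Set ℕ)
      exact Function.cantor_injective f hf
    obtain ⟨h0, h0i, hcc⟩ := exists_cont hun F0 hF0
    refine Pool.Agent.W921.VP.Final.cc L hL hr T ℕ inferInstance inferInstance
      (fun y => img hr θ (f (h0 y))) (fun y => (h1 _).2 ⟨_, hf1 _, rfl⟩) ?_ ?_
    · intro n R a
      have h3 : Continuous (fun y => F0 (h0 y) ⟨n, R, a⟩) :=
        (continuous_apply (⟨n, R, a⟩ : Σ n, L.Relations n × (Fin n → ℕ))).comp
          hcc
      have h4 : {y : ℕ → Bool | (img hr θ (f (h0 y))).RelMap R a} =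
          (fun y => F0 (h0 y) ⟨n, R, a⟩) ⁻¹' {true} := by
        ext y
        simp [F0, code]
      rw [h4]
      exact (isClopen_discrete {true}).preimage h3
    · intro y
      have hC := h2 (img hr θ (f (h0 y))) ((h1 _).2 ⟨_, hf1 _, rfl⟩)
      have hch : ∀ y' : {y' | Isom (img hr θ (f (h0 y'))) (img hr θ (f (h0 y)))},
          ∃ S' : L'.Structure ℕ, (Mods S' T' ∧ img hr θ S' = img hr θ (f (h0 y))) ∧
            Isom (f (h0 y'.1)) S' := by
        rintro ⟨y', e, he⟩
        have hi : Isom (f (h0 y')) (Pool.Agent.W345.VP.tr hr' e (f (h0 y'))) := by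
          refine ⟨e, fun n R s => ?_⟩
          show _ ↔ (f (h0 y')).RelMap R (fun i => e.symm (e (s i)))
          simp
        refine ⟨_, ⟨Pool.Agent.W345.VP.tr_mods hr' e _ T' (hf1 _), ?_⟩, hi⟩
        refine str_ext hr fun n R s => ?_
        have h5 := he n R (fun i => e.symm (s i))
        simp only [Equiv.apply_symm_apply] at h5
        rw [← h5]
        have h6 := realize_isom hr' (S := f (h0 y')) (S' := Pool.Agent.W345.VP.tr hr' e (f (h0 y')))
          e (fun n R s => by
            show _ ↔ (f (h0 y')).RelMap R (fun i => e.symm (e (s i)))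
            simp) (θ n R) (fun i => e.symm (s i))
        simp only [Equiv.apply_symm_apply] at h6
        exact h6.symm
      choose G hG1 hG2 using hch
      have := hC.to_subtype
      have hinj : Function.Injective (fun y' : {y' | Isom (img hr θ (f (h0 y')))
          (img hr θ (f (h0 y)))} => (⟨G y', hG1 y'⟩ :
            {S' : L'.Structure ℕ | Mods S' T' ∧ img hr θ S' = img hr θ (f (h0 y))})) := by
        intro a b hab
        have h5 : G a = G b := congrArg Subtype.val hab
        have h6 : Isom (f (h0 a.1)) (f (h0 b.1)) :=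
          isom_trans (hG2 a) (h5 ▸ isom_symm (hG2 b))
        exact Subtype.ext (h0i (hf2 _ _ h6))
      exact Set.countable_coe_iff.1 hinj.countable

end Pool.Agent.L7h71.GK
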